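import Pool.Agent.helper64.QF.Spec

set_option autoImplicit false

namespace Pool.Agent.helper64.QF

open Metric MeasureTheory Set Filter Topology
open Pool.Agent.helper37.PR

theorem INT_arith (a C u v m κ t f d : ℝ) (ha : 0 ≤ a) (hf0 : 0 ≤ f) (hd0 : 0 ≤ d)
    (hf : f ≤ u * Real.exp (-(m * t))) (hd : d ≤ C * v * Real.exp (κ * t)) :
    4 * a * f ^ 2 * d ≤ 4 * a * C * u ^ 2 * v * Real.exp ((κ - 2 * m) * t) := by
  have hf2 : f ^ 2 ≤ (u * Real.exp (-(m * t))) ^ 2 := pow_le_pow_left₀ hf0 hf 2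
  have h1 : f ^ 2 * d ≤ (u * Real.exp (-(m * t))) ^ 2 * (C * v * Real.exp (κ * t)) :=
    mul_le_mul hf2 hd hd0 (sq_nonneg _)
  have h4 : Real.exp ((κ - 2 * m) * t) = Real.exp (-(m * t)) ^ 2 * Real.exp (κ * t) := by
    rw [← Real.exp_nat_mul, ← Real.exp_add]
    congr 1
    push_cast
    ring
  rw [h4]
  calc 4 * a * f ^ 2 * d = 4 * a * (f ^ 2 * d) := by ring
    _ ≤ 4 * a * ((u * Real.exp (-(m * t))) ^ 2 * (C * v * Real.exp (κ * t))) :=
        mul_le_mul_of_nonneg_left h1 (by linarith)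
    _ = _ := by ring

theorem INT_int (f : ℝ → ℝ) (K c : ℝ) (hc : c < 0) (hf : Continuous f)
    (hb : ∀ t : ℝ, 0 ≤ t → 0 ≤ f t ∧ f t ≤ K * Real.exp (c * t)) : IntegrableOn f (Ioi 0) := by
  have hint : IntegrableOn (fun t : ℝ => K * Real.exp (c * t)) (Ioi 0) :=
    (integrableOn_exp_mul_Ioi hc 0).const_mul _
  refine Integrable.mono' hint (hf.aestronglyMeasurable) ?_
  refine (ae_restrict_iff' measurableSet_Ioi).mpr (Filter.Eventually.of_forall ?_)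
  intro t ht
  obtain ⟨h0, h1⟩ := hb t (le_of_lt ht)
  rw [Real.norm_of_nonneg h0]
  exact h1

theorem INT_comp {X : Type} [TopologicalSpace X] (F : X → X → ℝ) (hF : Continuous (fun q : X × X => F q.1 q.2))
    (f g : ℝ → X) (hf : Continuous f) (hg : Continuous g) : Continuous (fun t => F (f t) (g t)) :=
  hF.comp (hf.prodMk hg)

theorem INT_ct (n : ℕ) (A : E n →L[ℂ] E n) (U V : E n)
    (h1 : Continuous (fun q : E n × E n => sig A q.1 q.2))
    (h2 : Continuous (fw A U)) (h3 : Continuous (dual A V)) : Continuous (sigt A U V) :=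
  INT_comp (X := E n) (sig A) h1 (fw A U) (dual A V) h2 h3

theorem INT (hSIC : SIC_stmt) (hLIN : LIN_stmt) : INT_stmt := by
  intro n A m κ C hA U V
  have hS := hSIC n A m hA.m0 hA.low
  have hL := hLIN n A m κ C hA U V
  have hcont : Continuous (sigt A U V) := INT_ct n A U V hS.1 hL.2.2.2.2.2.2.2.1 hL.2.2.2.2.2.2.2.2.1
  have hb : ∀ t : ℝ, 0 ≤ t → 0 ≤ sigt A U V t ∧
      sigt A U V t ≤ 4 * ‖A‖ * C * ‖U‖ ^ 2 * ‖V‖ * Real.exp ((κ - 2 * m) * t) := by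
    intro t ht
    have h01 := hS.2 (fw A U t) (dual A V t)
    exact ⟨h01.1, h01.2.trans (INT_arith ‖A‖ C ‖U‖ ‖V‖ m κ t ‖fw A U t‖ ‖dual A V t‖
      (norm_nonneg _) (norm_nonneg _) (norm_nonneg _) (hL.2.2.1 t ht) (hL.2.2.2.1 t ht))⟩
  exact ⟨hcont, INT_int _ _ _ (by linarith [hA.κ2]) hcont hb, hb⟩

end Pool.Agent.helper64.QF
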